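import Pool.Agent.H37.CA.Targets

/-! # ALF: the Artin `L`-function of an induced character -/

set_option autoImplicit false

open NumberField Complex Filter Topology

namespace Pool.Agent.H25.CA

open Pool.Agent.H28.RC Pool.Agent.H25 Pool.Agent.H25.HK Pool.Agent.H37.CA

section

variable (F L : Type) [Field F] [NumberField F] [Field L] [NumberField L] [Algebra F L]
  [IsGalois ℚ L]

/-- the fixed field is the image of `F` -/
theorem mem_fixed (x : L) : x ∈ IntermediateField.fixedField (HF F L) ↔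
    x ∈ Set.range (algebraMap F L) := by
  have : IsGalois F L := IsGalois.tower_top_of_isGalois ℚ F L
  rw [IntermediateField.mem_fixedField_iff]
  constructor
  · intro h
    have h1 := (IsGalois.mem_range_algebraMap_iff_fixed (F := F) (E := L) x).2 fun g => by
      exact h (g.restrictScalars ℚ) (fun y => g.commutes y)
    exact h1
  · rintro ⟨y, rfl⟩ g hg
    exact hg y

/-- `F` is isomorphic to the fixed field -/
noncomputable def eF : F ≃+* IntermediateField.fixedField (HF F L) :=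
  RingEquiv.ofBijective
    ((algebraMap F L).codRestrict (IntermediateField.fixedField (HF F L)) fun x =>
      (mem_fixed F L _).2 ⟨x, rfl⟩) (by
    constructor
    · intro x y h
      exact (algebraMap F L).injective (congrArg Subtype.val h)
    · rintro ⟨x, hx⟩
      obtain ⟨y, hy⟩ := (mem_fixed F L x).1 hx
      exact ⟨y, Subtype.ext hy⟩)

theorem eF_coe (x : F) : ((eF F L x : IntermediateField.fixedField (HF F L)) : L) =
    algebraMap F L x := rfl

end

section

variable {F E : Type} [Field F] [NumberField F] [Field E] [NumberField E]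

/-- the isomorphism of the rings of integers -/
theorem ringEquiv_of (e : F ≃+* E) : ∃ ε : 𝓞 F ≃+* 𝓞 E, ∀ x,
    ε x = RingOfIntegers.mapRingHom (e : F →+* E) x :=
  ⟨RingOfIntegers.mapRingEquiv e, fun _ => rfl⟩

theorem absNorm_comap (e : F ≃+* E) (P : Ideal (𝓞 E)) :
    Ideal.absNorm (P.comap (RingOfIntegers.mapRingHom (e : F →+* E))) = Ideal.absNorm P := by
  obtain ⟨ε, hε⟩ := ringEquiv_of e
  have h1 : P.comap (RingOfIntegers.mapRingHom (e : F →+* E)) = P.comap (ε : 𝓞 F →+* 𝓞 E) := by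
    ext x
    rw [Ideal.mem_comap, Ideal.mem_comap]
    have h2 : (ε : 𝓞 F →+* 𝓞 E) x = RingOfIntegers.mapRingHom (e : F →+* E) x := hε x
    rw [h2]
  rw [h1, Ideal.absNorm_apply, Ideal.absNorm_apply, Submodule.cardQuot_apply,
    Submodule.cardQuot_apply]
  refine Nat.card_congr (Ideal.quotientEquiv _ _ ε ?_).toEquiv
  exact (Ideal.map_comap_of_surjective (ε : 𝓞 F →+* 𝓞 E) ε.surjective P).symm

end

theorem list_mem {R : Type} [CommRing R] (P : Ideal R) (hP : P.IsPrime) (l : List R)
    (h : l.prod ∈ P) : ∃ a ∈ l, a ∈ P := by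
  induction l with
  | nil =>
    rw [List.prod_nil] at h
    exact absurd ((Ideal.eq_top_iff_one P).2 h) hP.ne_top
  | cons a l ih =>
    rw [List.prod_cons] at h
    rcases hP.mem_or_mem h with h1 | h1
    · exact ⟨a, List.mem_cons_self, h1⟩
    · obtain ⟨b, hb, hbP⟩ := ih h1
      exact ⟨b, List.mem_cons_of_mem _ hb, hbP⟩

theorem pf_ALF (hTRN : T_TRN) (hALH : T_ALH) : T_ALF := by
  intro F L _ _ _ _ _ _ _ _ m χ φ hm hχ D V _ _ _ ρ hρ s hs
  obtain ⟨hTC, χ', hχ', hLc⟩ := hTRN F (IntermediateField.fixedField (HF F L)) (eF F L) χ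
  rw [← hLc s]
  refine hALH L (HF F L) φ χ' (Ideal.absNorm m).primeFactors hTC ?_ D V ρ hρ s hs
  intro P hP hP0 hPB h hmem hFro
  rw [hχ']
  obtain ⟨P', hP'⟩ : ∃ P' : Ideal (𝓞 F), P' = P.comap (RingOfIntegers.mapRingHom
    ((eF F L : F ≃+* _) : F →+* IntermediateField.fixedField (HF F L))) := ⟨_, rfl⟩
  have hprime : P'.IsPrime := by
    rw [hP']
    exact Ideal.comap_isPrime _ P
  have hnorm : Ideal.absNorm P' = Ideal.absNorm P := by
    rw [hP']
    exact absNorm_comap (eF F L) P
  have hP'0 : P' ≠ ⊥ := by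
    intro h0
    rw [h0, Ideal.absNorm_bot] at hnorm
    exact hP0 (Ideal.absNorm_eq_zero_iff.1 hnorm.symm)
  have hmax : P'.IsMaximal := hprime.isMaximal hP'0
  have hcop : P' ⊔ m = ⊤ := by
    by_contra hne
    have h1 : P' = P' ⊔ m := hmax.eq_of_le hne le_sup_left
    have h2 : m ≤ P' := by
      rw [h1]
      exact le_sup_right
    have h3 : ((Ideal.absNorm m : ℕ) : 𝓞 F) ∈ P' := h2 (Ideal.absNorm_mem m)
    have h4 : Ideal.absNorm m ≠ 0 := by
      rw [Ne, Ideal.absNorm_eq_zero_iff]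
      exact hm
    have h5 : ∀ n : ℕ, n ≠ 0 → ((n : ℕ) : 𝓞 F) ∈ P' → ∃ p ∈ n.primeFactors,
        ((p : ℕ) : 𝓞 F) ∈ P' := by
      intro n hn hnP
      rw [← Nat.prod_primeFactorsList hn] at hnP
      have h6 : ((n.primeFactorsList.prod : ℕ) : 𝓞 F) =
          (n.primeFactorsList.map (fun p : ℕ => (p : 𝓞 F))).prod := by
        rw [Nat.cast_list_prod]
      rw [h6] at hnP
      obtain ⟨a, ha, haP⟩ := list_mem P' hprime _ hnP
      rw [List.mem_map] at ha
      obtain ⟨p, hp, rfl⟩ := ha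
      exact ⟨p, Nat.mem_primeFactors_iff_mem_primeFactorsList.2 hp, haP⟩
    obtain ⟨p, hp, hpP⟩ := h5 _ h4 h3
    refine hPB p (Nat.prime_of_mem_primeFactors hp) hp ?_
    rw [hP', Ideal.mem_comap, map_natCast] at hpP
    exact hpP
  rw [← hP']
  -- the automorphism over `F`
  have hcomm : ∀ x : F, h (algebraMap F L x) = algebraMap F L x := fun x =>
    h.commutes (eF F L x)
  obtain ⟨g, hg⟩ : ∃ g : L ≃ₐ[F] L, ∀ x, g x = h x :=
    ⟨AlgEquiv.ofRingEquiv (f := (h : L ≃+* L)) hcomm, fun x => rfl⟩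
  refine hχ P' g ⟨h.restrictScalars ℚ, hmem⟩ hcop ?_ ?_
  · obtain ⟨Q, hQ, hQP, hQx⟩ := hFro
    refine ⟨Q, hQ, ?_, fun x => ?_⟩
    · ext x
      rw [hP', ← hQP, Ideal.mem_under]
      have h1 : algebraMap (𝓞 (IntermediateField.fixedField (HF F L))) (𝓞 L)
          (RingOfIntegers.mapRingHom ((eF F L : F ≃+* _) :
            F →+* IntermediateField.fixedField (HF F L)) x) = algebraMap (𝓞 F) (𝓞 L) x := by
        apply RingOfIntegers.ext
        rfl
      rw [← h1]
      exact Iff.rfl
    · rw [hnorm]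
      have h1 : g • x = h • x := by
        apply RingOfIntegers.ext
        exact hg x
      rw [h1]
      exact hQx x
  · ext x
    exact (hg x).symm

end Pool.Agent.H25.CA
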